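import Pool.Agent.J6H50.RF.Stm

/-!
# Project RF, module RF-19: bounded formulas of the class `Σ^b_1` define sets in `NP`
-/

set_option autoImplicit false

namespace Pool.Agent.J6H47.RF19

open Pool.Agent.J6H50.RF Pool.Agent.NPC
open Pool.Agent.NPC.TDec (dec dec_toT poly_dec)

/-- `NP` for properties of lists of numbers; certificates are trees. -/
def NPl (G : List ℕ → Prop) : Prop := ∃ (V : List ℕ × T → Bool) (q : Polynomial ℕ),
  Poly V ∧ (∀ l c, V (l, c) = true → G l) ∧ ∀ l, G l → ∃ c : T, sz c ≤ q.eval (sz l) ∧ V (l, c) = true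

theorem NPl.congr {G G' : List ℕ → Prop} (h : NPl G) (hG : ∀ l, G' l ↔ G l) : NPl G' := by
  obtain ⟨V, q, hV, h1, h2⟩ := h
  exact ⟨V, q, hV, fun l c hc => (hG l).2 (h1 l c hc), fun l hl => h2 l ((hG l).1 hl)⟩

theorem sz_node (a b : T) : sz (T.node a b) = sz a + sz b + 1 := sz_pair a b

theorem ofDec {G : List ℕ → Prop} (d : List ℕ → Bool) (hd : Poly d) (h : ∀ l, G l ↔ d l = true) :
    NPl G := by
  refine ⟨fun p => d p.1, Polynomial.C 1, hd.comp (Poly.fst Poly.id), fun l c hc => (h l).2 hc,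
    fun l hl => ⟨T.nil, ?_, (h l).1 hl⟩⟩
  rw [Polynomial.eval_C]
  exact le_of_eq rfl

theorem or {G G' : List ℕ → Prop} (h : NPl G) (h' : NPl G') : NPl (fun l => G l ∨ G' l) := by
  obtain ⟨V, q, hV, hs, hc⟩ := h
  obtain ⟨V', q', hV', hs', hc'⟩ := h'
  refine ⟨fun p => bif decide (p.2.hd = T.nil) then V (p.1, p.2.tl) else V' (p.1, p.2.tl),
    q + q' + Polynomial.C 4, ?_, ?_, ?_⟩
  · have h2 : Poly (fun p : List ℕ × T => p.2) := Poly.snd Poly.id
    have h1 : Poly (fun p : List ℕ × T => p.1) := Poly.fst Poly.id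
    exact Poly.cond (Poly.decide_eq (Poly.hd h2) (NPC.Poly.const T.nil))
      (hV.comp (Poly.pair h1 (Poly.tl h2))) (hV'.comp (Poly.pair h1 (Poly.tl h2)))
  · intro l c hlc
    by_cases hd : c.hd = T.nil
    · left
      refine hs l c.tl ?_
      simpa [hd] using hlc
    · right
      refine hs' l c.tl ?_
      simpa [hd] using hlc
  · intro l hl
    simp only [Polynomial.eval_add, Polynomial.eval_C]
    rcases hl with hl | hl
    · obtain ⟨c, hc1, hc2⟩ := hc l hl
      refine ⟨T.node T.nil c, ?_, ?_⟩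
      · rw [sz_node]
        have : sz T.nil = 1 := rfl
        omega
      · show (bif decide (T.nil = T.nil) then V (l, c) else V' (l, c)) = true
        simpa using hc2
    · obtain ⟨c, hc1, hc2⟩ := hc' l hl
      refine ⟨T.node (T.node T.nil T.nil) c, ?_, ?_⟩
      · rw [sz_node]
        have : sz (T.node T.nil T.nil) = 3 := rfl
        omega
      · show (bif decide (T.node T.nil T.nil = T.nil) then V (l, c) else V' (l, c)) = true
        simpa using hc2

theorem and {G G' : List ℕ → Prop} (h : NPl G) (h' : NPl G') : NPl (fun l => G l ∧ G' l) := by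
  obtain ⟨V, q, hV, hs, hc⟩ := h
  obtain ⟨V', q', hV', hs', hc'⟩ := h'
  refine ⟨fun p => V (p.1, p.2.hd) && V' (p.1, p.2.tl), q + q' + Polynomial.C 1, ?_, ?_, ?_⟩
  · have h2 : Poly (fun p : List ℕ × T => p.2) := Poly.snd Poly.id
    have h1 : Poly (fun p : List ℕ × T => p.1) := Poly.fst Poly.id
    exact Poly.and (hV.comp (Poly.pair h1 (Poly.hd h2))) (hV'.comp (Poly.pair h1 (Poly.tl h2)))
  · intro l c hlc
    simp only [Bool.and_eq_true] at hlc
    exact ⟨hs _ _ hlc.1, hs' _ _ hlc.2⟩
  · intro l hl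
    simp only [Polynomial.eval_add, Polynomial.eval_C]
    obtain ⟨c, hc1, hc2⟩ := hc l hl.1
    obtain ⟨c', hc1', hc2'⟩ := hc' l hl.2
    refine ⟨T.node c c', ?_, ?_⟩
    · rw [sz_node]
      omega
    · show (V (l, c) && V' (l, c')) = true
      rw [hc2, hc2']
      rfl

/-- the number given by a tree -/
def nd (t : T) : ℕ := (dec t : Option ℕ).getD 0

theorem nd_toT (x : ℕ) : nd (toT x) = x := by
  unfold nd
  rw [dec_toT]
  rfl

theorem poly_nd : Poly nd :=
  (Poly.optCases (o := fun t : T => (dec t : Option ℕ)) (g := fun _ => 0) (h := fun _ b => b)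
    poly_dec (NPC.Poly.const 0) (Poly.snd Poly.id)).congr fun t => by
      unfold nd
      cases (dec t : Option ℕ) <;> rfl

/-- the size of certificates after a quantifier -/
theorem bound {up : List ℕ × ℕ → List ℕ} (hup : Poly up) {B : List ℕ → ℕ} (hB : Poly B)
    (q : Polynomial ℕ) : ∃ r : Polynomial ℕ, ∀ l x, x ≤ B l →
      sz x ≤ r.eval (sz l) ∧ q.eval (sz (up (l, x))) ≤ r.eval (sz l) := by
  obtain ⟨r, hr⟩ := hup.sz_le
  obtain ⟨s, hs⟩ := hB.sz_le
  refine ⟨q.comp (r.comp (Polynomial.X + (2 * s) + Polynomial.C 1)) + 2 * s, fun l x hx => ?_⟩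
  have h1 : sz x ≤ 2 * s.eval (sz l) := (sz_nat_mono_le hx).trans (Nat.mul_le_mul_left _ (hs l))
  have e2 : (2 * s : Polynomial ℕ).eval (sz l) = 2 * s.eval (sz l) := by
    have : (2 * s : Polynomial ℕ) = s + s := two_mul s
    rw [this, Polynomial.eval_add]
    ring
  rw [Polynomial.eval_add, e2]
  refine ⟨h1.trans (Nat.le_add_left _ _), ?_⟩
  refine le_trans ?_ (Nat.le_add_right _ _)
  rw [Polynomial.eval_comp, Polynomial.eval_comp]
  refine eval_mono q ((hr (l, x)).trans (eval_mono r ?_))
  rw [Polynomial.eval_add, Polynomial.eval_add, Polynomial.eval_X, Polynomial.eval_C, e2, sz_pair]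
  omega

theorem exQ {up : List ℕ × ℕ → List ℕ} (hup : Poly up) {B : List ℕ → ℕ} (hB : Poly B)
    {G : List ℕ → Prop} (h : NPl G) : NPl (fun l => ∃ x ≤ B l, G (up (l, x))) := by
  obtain ⟨V, q, hV, hs, hc⟩ := h
  obtain ⟨r, hr⟩ := bound hup hB q
  refine ⟨fun p => decide (nd p.2.hd ≤ B p.1) && V (up (p.1, nd p.2.hd), p.2.tl),
    r + r + Polynomial.C 1, ?_, ?_, ?_⟩
  · have h2 : Poly (fun p : List ℕ × T => p.2) := Poly.snd Poly.id
    have h1 : Poly (fun p : List ℕ × T => p.1) := Poly.fst Poly.id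
    have h3 : Poly (fun p : List ℕ × T => nd p.2.hd) := poly_nd.comp (Poly.hd h2)
    exact Poly.and (Poly.decide_le h3 (hB.comp h1))
      (hV.comp (Poly.pair (hup.comp (Poly.pair h1 h3)) (Poly.tl h2)))
  · intro l c hlc
    simp only [Bool.and_eq_true, decide_eq_true_eq] at hlc
    exact ⟨_, hlc.1, hs _ _ hlc.2⟩
  · rintro l ⟨x, hx, hG⟩
    simp only [Polynomial.eval_add, Polynomial.eval_C]
    obtain ⟨c, hc1, hc2⟩ := hc _ hG
    obtain ⟨h1, h2⟩ := hr l x hx
    refine ⟨T.node (toT x) c, ?_, ?_⟩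
    · rw [sz_node]
      have : sz (toT x) = sz x := rfl
      omega
    · show (decide (nd (toT x) ≤ B l) && V (up (l, nd (toT x)), c)) = true
      rw [nd_toT, hc2]
      simpa using hx

theorem getD_map_range {β : Type} (f : ℕ → β) (n x : ℕ) (d : β) (hx : x < n) :
    ((List.range n).map f).getD x d = f x := by
  rw [List.getD_eq_getElem _ _ (by simpa using hx)]
  simp

theorem allQ {up : List ℕ × ℕ → List ℕ} (hup : Poly up) {B : List ℕ → ℕ} (hB : UPoly B)
    {G : List ℕ → Prop} (h : NPl G) : NPl (fun l => ∀ x ≤ B l, G (up (l, x))) := by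
  obtain ⟨V, q, hV, hs, hc⟩ := h
  obtain ⟨r, hr⟩ := bound hup hB.toPoly q
  obtain ⟨s, hs'⟩ := Poly.sz_le hB
  have hBs : ∀ l, B l ≤ s.eval (sz l) := fun l => by
    have h1 := hs' l
    have h2 := length_lt_sz (List.replicate (B l) ())
    rw [List.length_replicate] at h2
    omega
  refine ⟨fun p => (List.range (B p.1 + 1)).all (fun x => V (up (p.1, x), p.2.toList.getD x T.nil)),
    (s + Polynomial.C 1) * (r + Polynomial.C 1) + Polynomial.C 1, ?_, ?_, ?_⟩
  · have h1 : Poly (fun p : List ℕ × T => List.range (B p.1 + 1)) :=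
      UPoly.range (UPoly.add (hB.comp (Poly.fst Poly.id)) (UPoly.const 1))
    refine Poly.all (l := fun p : List ℕ × T => List.range (B p.1 + 1))
      (p := fun p x => V (up (p.1, x), p.2.toList.getD x T.nil)) h1 ?_
    have k1 : Poly (fun z : (List ℕ × T) × ℕ => z.1.1) := Poly.fst (Poly.fst Poly.id)
    have k2 : Poly (fun z : (List ℕ × T) × ℕ => z.1.2) := Poly.snd (Poly.fst Poly.id)
    have k3 : Poly (fun z : (List ℕ × T) × ℕ => z.2) := Poly.snd Poly.id
    exact hV.comp (Poly.pair (hup.comp (Poly.pair k1 k3))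
      (Poly.getD (Poly.treeList k2) k3 (NPC.Poly.const T.nil)))
  · intro l c hlc x hx
    simp only [List.all_eq_true, List.mem_range] at hlc
    exact hs _ _ (hlc x (by omega))
  · intro l hl
    simp only [Polynomial.eval_add, Polynomial.eval_C, Polynomial.eval_mul]
    have hch : ∀ x, ∃ c : T, x ≤ B l → sz c ≤ r.eval (sz l) ∧ V (up (l, x), c) = true := by
      intro x
      by_cases hx : x ≤ B l
      · obtain ⟨c, hc1, hc2⟩ := hc _ (hl x hx)
        exact ⟨c, fun _ => ⟨hc1.trans (hr l x hx).2, hc2⟩⟩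
      · exact ⟨T.nil, fun h => absurd h hx⟩
    choose c hcc using hch
    refine ⟨T.ofList ((List.range (B l + 1)).map c), ?_, ?_⟩
    · have h1 : sz (T.ofList ((List.range (B l + 1)).map c)) =
          sz ((List.range (B l + 1)).map c) := by
        show (T.ofList ((List.range (B l + 1)).map c)).size =
          (T.ofList (((List.range (B l + 1)).map c).map (fun t => t))).size
        rw [List.map_id']
      rw [h1]
      refine (sz_le_length_mul _ (r.eval (sz l)) ?_).trans ?_
      · intro a ha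
        rw [List.mem_map] at ha
        obtain ⟨x, hx, rfl⟩ := ha
        rw [List.mem_range] at hx
        exact (hcc x (by omega)).1
      · rw [List.length_map, List.length_range]
        have := hBs l
        exact Nat.add_le_add_right (Nat.mul_le_mul_right _ (by omega)) _
    · rw [List.all_eq_true]
      intro x hx
      rw [List.mem_range] at hx
      show V (up (l, x), (T.ofList ((List.range (B l + 1)).map c)).toList.getD x T.nil) = true
      rw [T.toList_ofList, getD_map_range _ _ _ _ hx]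
      exact (hcc x (by omega)).2

/-! ### Formulas -/

theorem val_update (i : ℕ) (x : ℕ) (v : ℕ → ℕ) : ∀ t : Tm, ¬ t.Occ i →
    t.val Nn (Function.update v i x) = t.val Nn v := by
  intro t
  induction t with
  | var j =>
    intro h
    have h' : j ≠ i := fun e => h e.symm
    simp [Tm.val, Function.update_of_ne h']
  | zero => intro _; rfl
  | suc t ih => intro h; simp only [Tm.val]; rw [ih h]
  | add s t ih ih' =>
    intro h
    simp only [Tm.Occ, not_or] at h
    simp only [Tm.val]
    rw [ih h.1, ih' h.2]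
  | mul s t ih ih' =>
    intro h
    simp only [Tm.Occ, not_or] at h
    simp only [Tm.val]
    rw [ih h.1, ih' h.2]
  | smash s t ih ih' =>
    intro h
    simp only [Tm.Occ, not_or] at h
    simp only [Tm.val]
    rw [ih h.1, ih' h.2]
  | len t ih => intro h; simp only [Tm.val]; rw [ih h]
  | half t ih => intro h; simp only [Tm.val]; rw [ih h]

theorem sat_bdd (i : ℕ) (s : Tm) (hs : ¬ s.Occ i) (φ : Fm) (v : ℕ → ℕ) :
    (Fm.all i (.imp (.le (.var i) s) φ)).Sat Nn v ↔
      ∀ x ≤ s.val Nn v, φ.Sat Nn (Function.update v i x) := by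
  simp only [Fm.Sat]
  constructor
  · intro h x hx
    refine h x ?_
    rw [val_update i x v s hs]
    show (Tm.var i).val Nn (Function.update v i x) ≤ _
    simp only [Tm.val, Function.update_self]
    exact hx
  · intro h x hx
    rw [val_update i x v s hs] at hx
    refine h x ?_
    have : (Tm.var i).val Nn (Function.update v i x) ≤ s.val Nn v := hx
    simpa only [Tm.val, Function.update_self] using this

/-- truth (`b = true`) or falsity (`b = false`) -/
def Gd (b : Bool) (φ : Fm) (l : List ℕ) : Prop :=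
  (b = true ∧ φ.Sat Nn (asg l)) ∨ (b = false ∧ ¬ φ.Sat Nn (asg l))

theorem Gd_true (φ : Fm) (l : List ℕ) : Gd true φ l ↔ φ.Sat Nn (asg l) := by
  simp [Gd]

theorem Gd_false (φ : Fm) (l : List ℕ) : Gd false φ l ↔ ¬ φ.Sat Nn (asg l) := by
  simp [Gd]

theorem main (hval : S_val) : ∀ (b : Bool) (φ : Fm), Sb b φ → NPl (Gd b φ) := by
  obtain ⟨hv, hup⟩ := hval
  intro b φ h
  induction h with
  | bot b =>
    refine ofDec (fun _ => !b) (NPC.Poly.const _) fun l => ?_
    cases b
    · rw [Gd_false]; simp [Fm.Sat]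
    · rw [Gd_true]; simp [Fm.Sat]
  | eq b s t =>
    have h1 : Poly (fun l : List ℕ => decide (s.val Nn (asg l) = t.val Nn (asg l))) :=
      Poly.decide_eq (hv s) (hv t)
    cases b
    · refine ofDec (fun l => !(decide (s.val Nn (asg l) = t.val Nn (asg l)))) (Poly.not h1)
        fun l => ?_
      rw [Gd_false]; simp [Fm.Sat]
    · refine ofDec (fun l => decide (s.val Nn (asg l) = t.val Nn (asg l))) h1 fun l => ?_
      rw [Gd_true]; simp [Fm.Sat]
  | le b s t =>
    have h1 : Poly (fun l : List ℕ => decide (s.val Nn (asg l) ≤ t.val Nn (asg l))) :=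
      Poly.decide_le (hv s) (hv t)
    cases b
    · refine ofDec (fun l => !(decide (s.val Nn (asg l) ≤ t.val Nn (asg l)))) (Poly.not h1)
        fun l => ?_
      rw [Gd_false]
      show ¬ (s.val Nn (asg l) ≤ t.val Nn (asg l)) ↔ _
      simp
    · refine ofDec (fun l => decide (s.val Nn (asg l) ≤ t.val Nn (asg l))) h1 fun l => ?_
      rw [Gd_true]
      show (s.val Nn (asg l) ≤ t.val Nn (asg l)) ↔ _
      simp
  | @imp b φ ψ _ _ ih1 ih2 =>
    cases b
    · refine (and ih1 ih2).congr fun l => ?_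
      rw [Gd_false, Gd_false]
      show ¬ (φ.Sat Nn (asg l) → ψ.Sat Nn (asg l)) ↔ Gd true φ l ∧ _
      rw [Gd_true, Classical.not_imp]
    · refine (or ih1 ih2).congr fun l => ?_
      rw [Gd_true, Gd_true]
      show (φ.Sat Nn (asg l) → ψ.Sat Nn (asg l)) ↔ Gd false φ l ∨ _
      rw [Gd_false]
      exact imp_iff_not_or
  | @sharp b i t φ ht _ ih =>
    obtain ⟨up, hpu, hu⟩ := hup i
    cases b
    · refine (exQ hpu (hv (.len t)) ih).congr fun l => ?_
      rw [Gd_false, sat_bdd i (.len t) ht]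
      push Not
      refine exists_congr fun x => and_congr_right fun _ => ?_
      rw [Gd_false, hu]
    · have hU : UPoly (fun l : List ℕ => (Tm.len t).val Nn (asg l)) := by
        have h1 : UPoly (fun l : List ℕ => (t.val Nn (asg l)).bits.length) :=
          UPoly.length (Poly.natBits (hv t))
        have h2 : (fun l : List ℕ => (Tm.len t).val Nn (asg l)) =
            fun l : List ℕ => (t.val Nn (asg l)).bits.length := by
          funext l
          show (t.val Nn (asg l)).size = _
          rw [Nat.size_eq_bits_len]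
        rw [h2]
        exact h1
      refine (allQ hpu hU ih).congr fun l => ?_
      rw [Gd_true, sat_bdd i (.len t) ht]
      refine forall_congr' fun x => forall_congr' fun _ => ?_
      rw [Gd_true, hu]
  | @bdd i t φ ht _ ih =>
    obtain ⟨up, hpu, hu⟩ := hup i
    refine (exQ hpu (hv t) ih).congr fun l => ?_
    rw [Gd_false, sat_bdd i t ht]
    push Not
    refine exists_congr fun x => and_congr_right fun _ => ?_
    rw [Gd_false, hu]

theorem m19 : S_np := by
  intro hval φ hφ
  obtain ⟨V, q, hV, hs, hc⟩ := main hval true φ hφ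
  refine ⟨V, q, hV, fun l => ?_⟩
  rw [← Gd_true]
  exact ⟨fun h => hc l h, fun ⟨c, _, hc'⟩ => hs l c hc'⟩

end Pool.Agent.J6H47.RF19
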